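import Pool.Agent.K3h49.Lat.Stm

/-! LAT brick ATOMS. -/

set_option autoImplicit false

namespace Pool.Agent.K3h8.Lat

open Finset
open scoped Pointwise Classical FinsetFamily
open Pool.Agent.K3h49.Lat

/-- exponents -/
def fac (a : ℕ) : ℕ → ℕ := fun p => a.factorization p

lemma fac_inj {a b : ℕ} (ha : 0 < a) (hb : 0 < b) (h : fac a = fac b) : a = b := by
  refine Nat.eq_of_factorization_eq ha.ne' hb.ne' fun p => congrFun h p

lemma fac_gcd {a b : ℕ} (ha : 0 < a) (hb : 0 < b) : fac (Nat.gcd a b) = fac a ⊓ fac b := by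
  funext p
  simp only [fac, Pi.inf_apply, Nat.factorization_gcd ha.ne' hb.ne', Finsupp.inf_apply]

lemma fac_lcm {a b : ℕ} (ha : 0 < a) (hb : 0 < b) : fac (Nat.lcm a b) = fac a ⊔ fac b := by
  funext p
  simp only [fac, Pi.sup_apply, Nat.factorization_lcm ha.ne' hb.ne', Finsupp.sup_apply]

/-- FKG for down-sets -/
lemma fkg (L : Finset ℕ) (hpos : ∀ a ∈ L, 0 < a) (hg : ∀ a ∈ L, ∀ b ∈ L, Nat.gcd a b ∈ L)
    (hl : ∀ a ∈ L, ∀ b ∈ L, Nat.lcm a b ∈ L) (F G : Finset ℕ) (hF : F ⊆ L) (hG : G ⊆ L)
    (dF : ∀ a ∈ F, ∀ b ∈ L, b ∣ a → b ∈ F) (dG : ∀ a ∈ G, ∀ b ∈ L, b ∣ a → b ∈ G) :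
    F.card * G.card ≤ (F ∩ G).card * L.card := by
  have hinj : Set.InjOn fac (L : Set ℕ) := fun a ha b hb h => fac_inj (hpos a ha) (hpos b hb) h
  have hc : ∀ M : Finset ℕ, M ⊆ L → (M.image fac).card = M.card := fun M hM =>
    card_image_of_injOn (hinj.mono (by exact_mod_cast hM))
  have key := Finset.le_card_infs_mul_card_sups (F.image fac) (G.image fac)
  rw [hc F hF, hc G hG] at key
  have h1 : F.image fac ⊼ G.image fac ⊆ (F ∩ G).image fac := by
    intro x hx
    obtain ⟨y, hy, z, hz, rfl⟩ := mem_infs.1 hx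
    obtain ⟨a, ha, rfl⟩ := mem_image.1 hy
    obtain ⟨b, hb, rfl⟩ := mem_image.1 hz
    have haL := hF ha
    have hbL := hG hb
    rw [← fac_gcd (hpos a haL) (hpos b hbL)]
    refine mem_image_of_mem _ (mem_inter.2 ⟨?_, ?_⟩)
    · exact dF a ha _ (hg a haL b hbL) (Nat.gcd_dvd_left a b)
    · exact dG b hb _ (hg a haL b hbL) (Nat.gcd_dvd_right a b)
  have h2 : F.image fac ⊻ G.image fac ⊆ L.image fac := by
    intro x hx
    obtain ⟨y, hy, z, hz, rfl⟩ := mem_sups.1 hx
    obtain ⟨a, ha, rfl⟩ := mem_image.1 hy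
    obtain ⟨b, hb, rfl⟩ := mem_image.1 hz
    have haL := hF ha
    have hbL := hG hb
    rw [← fac_lcm (hpos a haL) (hpos b hbL)]
    exact mem_image_of_mem _ (hl a haL b hbL)
  calc F.card * G.card ≤ _ := key
    _ ≤ ((F ∩ G).image fac).card * (L.image fac).card :=
      Nat.mul_le_mul (card_le_card h1) (card_le_card h2)
    _ = _ := by rw [hc _ (inter_subset_left.trans hF), hc L (Subset.refl L)]

theorem t_atoms : AtomsStm := by
  intro L hpos hg hl h hh hmin R hR hat s hs
  have hLpos : 0 < L.card := card_pos.2 ⟨h, hh⟩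
  have hLR : (0 : ℝ) < L.card := by exact_mod_cast hLpos
  have hhpos : 0 < h := hpos h hh
  let At : Finset ℕ := L.filter fun u => u ≠ h ∧ ∀ a ∈ L, a ∣ u → a = h ∨ a = u
  let FF : Finset ℕ → Finset ℕ := fun J => L.filter fun a => ∀ u ∈ J, ¬ u ∣ a
  have hAt : ∀ u, u ∈ At ↔ u ∈ L ∧ u ≠ h ∧ ∀ a ∈ L, a ∣ u → a = h ∨ a = u := fun u => by
    simp only [At, mem_filter]
  have hFF : ∀ J a, a ∈ FF J ↔ a ∈ L ∧ ∀ u ∈ J, ¬ u ∣ a := fun J a => by
    simp only [FF, mem_filter]
  have dFF : ∀ J, ∀ a ∈ FF J, ∀ b ∈ L, b ∣ a → b ∈ FF J := by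
    intro J a ha b hb hba
    rw [hFF] at ha ⊢
    exact ⟨hb, fun u hu hub => ha.2 u hu (hub.trans hba)⟩
  have hsub : ∀ J, FF J ⊆ L := fun J => filter_subset _ _
  -- induction
  have hJ : ∀ J : Finset ℕ, J ⊆ At → (L.card : ℝ) ≤ R ^ J.card * ((FF J).card : ℝ) := by
    intro J
    induction J using Finset.induction_on with
    | empty =>
      intro _
      have : FF ∅ = L := by
        ext a; rw [hFF]; simp
      rw [this]; simp
    | insert u J hu ih =>
      intro hsubJ
      have h1 := ih (fun v hv => hsubJ (mem_insert_of_mem hv))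
      obtain ⟨huL, huh, hu2⟩ := (hAt u).1 (hsubJ (mem_insert_self u J))
      have h2 := hat u huL huh hu2
      have h3 := fkg L hpos hg hl (FF J) (FF {u}) (hsub _) (hsub _) (dFF _) (dFF _)
      have e1 : FF J ∩ FF {u} = FF (insert u J) := by
        ext a
        rw [mem_inter, hFF, hFF, hFF]
        constructor
        · rintro ⟨⟨h4, h5⟩, _, h6⟩
          refine ⟨h4, fun v hv => ?_⟩
          rcases mem_insert.1 hv with rfl | hv
          · exact h6 v (mem_singleton_self v)
          · exact h5 v hv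
        · rintro ⟨h4, h5⟩
          exact ⟨⟨h4, fun v hv => h5 v (mem_insert_of_mem hv)⟩, h4, fun v hv => by
            rw [mem_singleton.1 hv]; exact h5 u (mem_insert_self u J)⟩
      have e2 : (L.filter fun a => ¬ u ∣ a) = FF {u} := by
        ext a; rw [hFF, mem_filter]; simp
      rw [e2] at h2
      rw [e1] at h3
      have h3' : ((FF J).card : ℝ) * ((FF {u}).card : ℝ) ≤
          ((FF (insert u J)).card : ℝ) * (L.card : ℝ) := by exact_mod_cast h3
      rw [card_insert_of_notMem hu]
      have hRJ : (0 : ℝ) < R ^ J.card := by positivity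
      have h7 : (L.card : ℝ) * L.card ≤ (R ^ (J.card + 1) * ((FF (insert u J)).card : ℝ)) * L.card := by
        calc (L.card : ℝ) * L.card ≤ (R ^ J.card * ((FF J).card : ℝ)) * (R * ((FF {u}).card : ℝ)) :=
              mul_le_mul h1 h2 hLR.le (by positivity)
          _ = R ^ (J.card + 1) * (((FF J).card : ℝ) * ((FF {u}).card : ℝ)) := by ring
          _ ≤ R ^ (J.card + 1) * (((FF (insert u J)).card : ℝ) * (L.card : ℝ)) :=
              mul_le_mul_of_nonneg_left h3' (by positivity)
          _ = _ := by ring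
      exact le_of_mul_le_mul_right h7 hLR
  -- number of atoms
  have hcount : s ≤ At.card := by
    have h1 := hJ At (Subset.refl _)
    have h2 : FF At ⊆ {h} := by
      intro a ha
      rw [hFF] at ha
      rw [mem_singleton]
      by_contra hne
      have hex : ∃ u, u ∈ L ∧ u ∣ a ∧ u ≠ h := ⟨a, ha.1, dvd_rfl, hne⟩
      classical
      let u := Nat.find hex
      obtain ⟨hu1, hu2, hu3⟩ := Nat.find_spec hex
      refine ha.2 u ((hAt u).2 ⟨hu1, hu3, fun b hb hbu => ?_⟩) hu2
      by_cases hbh : b = h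
      · exact Or.inl hbh
      · right
        have h3 : u ≤ b := Nat.find_min' hex ⟨hb, hbu.trans hu2, hbh⟩
        exact le_antisymm (Nat.le_of_dvd (hpos u hu1) hbu) h3
    have h3 : ((FF At).card : ℝ) ≤ 1 := by
      have := card_le_card h2
      rw [card_singleton] at this
      exact_mod_cast this
    have h4 : R ^ s ≤ R ^ At.card := by
      calc R ^ s ≤ L.card := hs
        _ ≤ _ := h1
        _ ≤ R ^ At.card * 1 := mul_le_mul_of_nonneg_left h3 (by positivity)
        _ = _ := mul_one _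
    exact (pow_le_pow_iff_right₀ hR).1 h4
  obtain ⟨J, hJsub, hJcard⟩ := exists_subset_card_eq hcount
  have hJL : ∀ u ∈ J, u ∈ L ∧ u ≠ h ∧ ∀ a ∈ L, a ∣ u → a = h ∨ a = u := fun u hu =>
    (hAt u).1 (hJsub hu)
  have hmul : ∀ u ∈ J, h * (u / h) = u := fun u hu => Nat.mul_div_cancel' (hmin u (hJL u hu).1)
  have hinjJ : Set.InjOn (fun u => u / h) (J : Set ℕ) := by
    intro u hu v hv huv
    have h1 := hmul u hu
    have h2 := hmul v hv
    have huv' : u / h = v / h := huv
    rw [← h1, ← h2, huv']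
  have hcop : ∀ u ∈ J, ∀ v ∈ J, u ≠ v → Nat.Coprime (u / h) (v / h) := by
    intro u hu v hv huv
    obtain ⟨h1, h2, h3⟩ := hJL u hu
    obtain ⟨h1', h2', h3'⟩ := hJL v hv
    have hgl := hg u h1 v h1'
    have hgh : Nat.gcd u v = h := by
      rcases h3 _ hgl (Nat.gcd_dvd_left u v) with h4 | h4
      · exact h4
      · exfalso
        have h5 : u ∣ v := h4 ▸ Nat.gcd_dvd_right u v
        rcases h3' u h1 h5 with h6 | h6
        · exact h2 h6
        · exact huv h6
    have := Nat.coprime_div_gcd_div_gcd (m := u) (n := v) (by rw [hgh]; exact hhpos)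
    rwa [hgh] at this
  refine ⟨J.image fun u => u / h, ?_, ?_, ?_, FF J, hsub J, ⟨h, ?_⟩, ?_, ?_⟩
  · rw [card_image_of_injOn hinjJ, hJcard]
  · intro q hq
    obtain ⟨u, hu, rfl⟩ := mem_image.1 hq
    have h1 := hmul u hu
    obtain ⟨h2, h3, -⟩ := hJL u hu
    have h4 := hpos u h2
    rcases Nat.lt_or_ge (u / h) 2 with h5 | h5
    · exfalso
      interval_cases hq2 : u / h
      · rw [mul_zero] at h1; omega
      · rw [mul_one] at h1; exact h3 h1.symm
    · exact h5
  · intro q hq q' hq' hne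
    obtain ⟨u, hu, rfl⟩ := mem_image.1 hq
    obtain ⟨v, hv, rfl⟩ := mem_image.1 hq'
    exact hcop u hu v hv fun huv => hne (by rw [huv])
  · rw [hFF]
    refine ⟨hh, fun u hu huh => ?_⟩
    obtain ⟨h2, h3, -⟩ := hJL u hu
    exact h3 (Nat.dvd_antisymm huh (hmin u h2))
  · have := hJ J hJsub
    rwa [hJcard] at this
  · intro S hS x hx
    have hx' := (hFF J x).1 hx
    obtain ⟨x0, hx0⟩ := hmin x hx'.1
    induction S using Finset.induction_on with
    | empty => simpa using hx'.1
    | insert q S hqS ih =>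
      have hy := ih fun v hv => hS (mem_insert_of_mem hv)
      obtain ⟨u, hu, huq⟩ := mem_image.1 (hS (mem_insert_self q S))
      have huq' : h * q = u := by rw [← huq]; exact hmul u hu
      obtain ⟨h1, h2, h3⟩ := hJL u hu
      set y := (∏ q ∈ S, q) * x with hydef
      have hgy : Nat.gcd y u = h := by
        rcases h3 _ (hg y hy u h1) (Nat.gcd_dvd_right y u) with h4 | h4
        · exact h4
        · exfalso
          have h5 : u ∣ y := h4 ▸ Nat.gcd_dvd_left y u
          have h6 : h * q ∣ h * ((∏ q ∈ S, q) * x0) := by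
            rw [huq']
            have : h * ((∏ q ∈ S, q) * x0) = y := by rw [hydef, hx0]; ring
            rw [this]; exact h5
          have h7 := (Nat.mul_dvd_mul_iff_left hhpos).1 h6
          have h8 : Nat.Coprime q (∏ q ∈ S, q) := by
            refine Nat.Coprime.prod_right fun r hr => ?_
            obtain ⟨v, hv, hvr⟩ := mem_image.1 (hS (mem_insert_of_mem hr))
            rw [← huq, ← hvr]
            refine hcop u hu v hv fun huv => ?_
            apply hqS
            rw [← huq, huv]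
            have : v / h = r := hvr
            rw [this]; exact hr
          have h9 := h8.dvd_of_dvd_mul_left h7
          refine hx'.2 u hu ?_
          rw [← huq', hx0]
          exact Nat.mul_dvd_mul_left h h9
      have h10 : (∏ q ∈ insert q S, q) * x = Nat.lcm y u := by
        rw [prod_insert hqS]
        have h11 : Nat.gcd y u * Nat.lcm y u = y * u := Nat.gcd_mul_lcm y u
        rw [hgy] at h11
        have h12 : h * (q * (∏ q ∈ S, q) * x) = h * Nat.lcm y u := by
          rw [h11, ← huq', hydef]; ring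
        exact Nat.eq_of_mul_eq_mul_left hhpos h12
      rw [h10]
      exact hl y hy u h1

end Pool.Agent.K3h8.Lat
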